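import Mathlib

/-!
# A fully transitive self-dual polyhedron of type {8,8} without polarities

We exhibit a finite abstract polyhedron with 18 vertices, 72 edges and 18 two-faces which is
equivelar of type {8,8}, self-dual and fully transitive, and none of whose dualities has
period two.

Construction. Let `K` be the group of order 72 generated by the four permutations
`ρ 0, ρ 1, ρ 2, ρ 3` of nine points (see `rho` below). They are involutions which are permuted
cyclically by the permutation `u` of order four. The edges are the elements of `K`; the vertices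
are the left cosets of `⟨ρ 3, ρ 0⟩` and of `⟨ρ 1, ρ 2⟩`, the two-faces are the left cosets of
`⟨ρ 0, ρ 1⟩` and of `⟨ρ 2, ρ 3⟩`; all these subgroups are point stabilisers, so each of the four
coset spaces is a copy of the nine points. Incidence is non-empty intersection.
Conjugation by `u` is a duality. A polarity would force an automorphism of `K` which
exchanges `ρ 1` and `ρ 3` and fixes `ρ 0` and `ρ 2` (or the other way round), but
`ρ 1 * ρ 0 * ρ 1 = ρ 3 * ρ 2 * ρ 3` holds in `K` while
`ρ 3 * ρ 0 * ρ 3 = ρ 1 * ρ 2 * ρ 1` does not.
-/

namespace Pool.Agent.Results.MP_1940b6_co.FullyTransitiveNoPolarity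

/-! ### The general notions -/

/-- `rk` makes the partially ordered set `P` an abstract polyhedron
(abstract polytope of rank 3). `Flag P` is the type of maximal chains of `P`. -/
structure IsAbstractPolyhedron {P : Type} [PartialOrder P] (rk : P → ℤ) : Prop where
  /-- the rank function is strictly monotone -/
  strictMono : StrictMono rk
  /-- the rank function is onto `{-1, 0, 1, 2, 3}` -/
  range_eq : Set.range rk = {-1, 0, 1, 2, 3}
  /-- there is a least face, and it is the only face of rank `-1` -/
  least : ∃ F : P, (∀ G, F ≤ G) ∧ ∀ G, rk G = -1 ↔ G = F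
  /-- there is a greatest face, and it is the only face of rank `3` -/
  greatest : ∃ F : P, (∀ G, G ≤ F) ∧ ∀ G, rk G = 3 ↔ G = F
  /-- every flag has exactly five elements -/
  flag_card : ∀ Φ : Flag P, (Φ : Set P).ncard = 5
  /-- the diamond condition -/
  diamond : ∀ F G : P, F ≤ G → rk G = rk F + 2 →
    {H : P | F ≤ H ∧ H ≤ G ∧ rk H = rk F + 1}.ncard = 2
  /-- strong flag-connectedness: any two flags `Φ`, `Ψ` are joined by a sequence of flags, each
  differing from the next in exactly one face and each containing `Φ ∩ Ψ` -/
  connected : ∀ Φ Ψ : Flag P,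
    Relation.ReflTransGen
      (fun s t : Flag P => ((s : Set P) \ (t : Set P)).ncard = 1 ∧
        (Φ : Set P) ∩ (Ψ : Set P) ⊆ (t : Set P)) Φ Ψ

/-- The section `G / F` (of an abstract polyhedron) is an `n`-gon: the ranks of `F` and `G` differ
by `3`, and between `F` and `G` there are exactly `n` faces of each of the two intermediate
ranks. -/
def IsPolygon {P : Type} [PartialOrder P] (rk : P → ℤ) (F G : P) (n : ℕ) : Prop :=
  F ≤ G ∧ rk G = rk F + 3 ∧ {H : P | F ≤ H ∧ H ≤ G ∧ rk H = rk F + 1}.ncard = n ∧
    {H : P | F ≤ H ∧ H ≤ G ∧ rk H = rk F + 2}.ncard = n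

/-- Equivelar of type `{p, q}`: every two-face is a `p`-gon and every vertex-figure is
a `q`-gon. -/
def IsEquivelar {P : Type} [PartialOrder P] (rk : P → ℤ) (p q : ℕ) : Prop :=
  (∀ F G : P, rk F = -1 → rk G = 2 → IsPolygon rk F G p) ∧
    (∀ F G : P, rk F = 0 → rk G = 3 → IsPolygon rk F G q)

/-- A duality: an order-reversing bijection of `P` onto itself. -/
def IsDuality {P : Type} [PartialOrder P] (δ : P ≃ P) : Prop :=
  ∀ F G : P, F ≤ G ↔ δ G ≤ δ F

/-- Fully transitive: the automorphism group is transitive on the faces of each rank. -/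
def IsFullyTransitive {P : Type} [PartialOrder P] (rk : P → ℤ) : Prop :=
  ∀ F G : P, rk F = rk G → ∃ φ : P ≃o P, φ F = G

/-! ### The data -/

/-- A self-map of the 72 edges, encoded in base 128. -/
def eFn (T : ℕ) (e : Fin 72) : Fin 72 := Fin.ofNat 72 (T / 128 ^ e.val % 128)
/-- A map from the 72 edges to the 9 points, encoded in base 16. -/
def pFn (T : ℕ) (e : Fin 72) : Fin 9 := Fin.ofNat 9 (T / 16 ^ e.val % 16)
/-- A self-map of the 9 points, encoded in base 16. -/
def qFn (T : ℕ) (i : Fin 9) : Fin 9 := Fin.ofNat 9 (T / 16 ^ i.val % 16)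

/-- Right multiplication by the generators. -/
def R (t s : Bool) (e : Fin 72) : Fin 72 :=
  match t, s with
  | false, false =>
    eFn 27620565959168247238030749837769239256496255607210057057370898786299058911194510162771563755196144840891125900766527339358957142518124017146751751421953 e
  | true, false =>
    eFn 28445759190011588998913828930053164378003926793624478597658752009665134100703660514707895310804403583644029580805326137842803551879071148108186394821250 e
  | true, true =>
    eFn 28870439507324803961850285596754380429019902983794169061790181476892509757614316201798542507232625788999984463114961037275982969255273745845628029780739 e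
  | false, true =>
    eFn 28033091157592956064966808866111628031212494291877667679091568806790733186529235613929789080087551969578113590082128643204862632084481057348988004631428 e

/-- Left multiplication by the generators. -/
def L (i : Fin 4) (e : Fin 72) : Fin 72 :=
  match i with
  | 0 =>
    eFn 28870792489414173586482303979168494545502090348148389064634587729794547514743050829280497921695269073293311503078181767270904978130811393055857441849345 e
  | 1 =>
    eFn 27978772714545112407910297340336948102591843102017775010394114625509579118015550602589267061385060995738271302966750094495094918306471054159508727137282 e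
  | 2 =>
    eFn 27559856534470451627157853823220979506850513792338029165167101137860790070523175577150379422799373950729578893903561587749837329821773019591801332499843 e
  | 3 =>
    eFn 28401005605551769752845773254038982336467356663227727708241296089671013754272962412279426478373716190546796527942484773201050285443772300868451312060164 e

/-- The four generators as permutations of the nine points. -/
def rho (i : Fin 4) (x : Fin 9) : Fin 9 :=
  match i with
  | 0 => qFn 32316346881 x
  | 1 => qFn 35726307426 x
  | 2 => qFn 10559174676 x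
  | 3 => qFn 26983465491 x

/-- Conjugation by `u` on the edges. -/
def sg (e : Fin 72) : Fin 72 :=
  eFn 29270476597396125028081962273097288848656859588374748356984950852578359079279109199231973301100981466959645369948596493900047564608941652938626789589248 e

/-- The permutation `u` of the nine points. -/
def uu (x : Fin 9) : Fin 9 := qFn 31547659296 x

/-- The vertex of type `t` of an edge. -/
def av (t : Bool) (e : Fin 72) : Fin 9 :=
  match t with
  | false => pFn 102985679338122484867937031023841953612825288596339429373128739780319527577647504850978 e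
  | true => pFn 66297432181582700747518712129021441136278742516646707046874826857209568850371389961043 e

/-- The two-face of type `s` of an edge. -/
def af (s : Bool) (e : Fin 72) : Fin 9 :=
  match s with
  | false => pFn 31250135822490050483314029478749391714819594620997398425814110426632169056328078525508 e
  | true => pFn 132982001207360933383070517544722528541415423982828415897999411833711078073724917847553 e

/-! ### Finite checks -/

theorem R_spec : ∀ t s : Bool, ∀ e : Fin 72,
    av t (R t s e) = av t e ∧ af s (R t s e) = af s e ∧ R t s e ≠ e ∧ R t s (R t s e) = e := by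
  decide +kernel

theorem corner : ∀ t s : Bool, ∀ e e' : Fin 72, av t e' = av t e → af s e' = af s e →
    e' = e ∨ e' = R t s e := by
  decide +kernel


/-- The eight elements obtained by applying `f` and `g` alternately. -/
def orb (f g : Fin 72 → Fin 72) (e : Fin 72) : List (Fin 72) :=
  [e, f e, g (f e), f (g (f e)), g (f (g (f e))), f (g (f (g (f e)))),
    g (f (g (f (g (f e))))), f (g (f (g (f (g (f e))))))]

theorem vertex_orb : ∀ t : Bool, ∀ e e' : Fin 72, av t e' = av t e →
    e' ∈ orb (R t false) (R t true) e := by
  decide +kernel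

theorem face_orb : ∀ s : Bool, ∀ e e' : Fin 72, af s e' = af s e →
    e' ∈ orb (R false s) (R true s) e := by
  decide +kernel

theorem R_lt : ∀ e : Fin 72, e ≠ 0 → ∃ t s : Bool, R t s e < e := by
  decide +kernel

theorem L_lt : ∀ e : Fin 72, e ≠ 0 → ∃ i : Fin 4, L i e < e := by
  decide +kernel

theorem av_surj : ∀ t : Bool, ∀ i : Fin 9, ∃ e : Fin 72, av t e = i := by
  decide +kernel

theorem af_surj : ∀ s : Bool, ∀ i : Fin 9, ∃ e : Fin 72, af s e = i := by
  decide +kernel

theorem L_spec : ∀ i : Fin 4, ∀ e : Fin 72, L i (L i e) = e ∧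
    (∀ t : Bool, av t (L i e) = rho i (av t e) ∧ af t (L i e) = rho i (af t e)) := by
  decide +kernel

theorem rho_rho : ∀ i : Fin 4, ∀ x : Fin 9, rho i (rho i x) = x := by
  decide +kernel

theorem uu_four : ∀ x : Fin 9, uu (uu (uu (uu x))) = x := by
  decide +kernel

theorem sg_four : ∀ e : Fin 72, sg (sg (sg (sg e))) = e := by
  decide +kernel

theorem sg_spec : ∀ e : Fin 72, ∀ t : Bool, af t (sg e) = uu (av t e) ∧
    av (!t) (sg e) = uu (af t e) := by
  decide +kernel

theorem word_id : ∀ e : Fin 72,
    R true false (R false true (R true true (R false true (R true false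
      (R false false e))))) = e := by
  decide +kernel

theorem word_ne : ∀ e : Fin 72,
    R false true (R true false (R true true (R true false (R false true
      (R false false e))))) ≠ e ∧
    R true false (R false true (R false false (R false true (R true false
      (R true true e))))) ≠ e := by
  decide +kernel

/-! ### The partially ordered set -/

/-- The faces of the polyhedron. -/
inductive Fc : Type
  | bot : Fc
  | vert (t : Bool) (i : Fin 9) : Fc
  | edge (e : Fin 72) : Fc
  | face (s : Bool) (j : Fin 9) : Fc
  | top : Fc
  deriving DecidableEq, Fintype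

open Fc

/-- The order relation. -/
def leF : Fc → Fc → Prop
  | bot, _ => True
  | vert _ _, bot => False
  | vert t i, vert t' i' => t = t' ∧ i = i'
  | vert t i, edge e => av t e = i
  | vert t i, face s j => ∃ e, av t e = i ∧ af s e = j
  | vert _ _, top => True
  | edge _, bot => False
  | edge _, vert _ _ => False
  | edge e, edge e' => e = e'
  | edge e, face s j => af s e = j
  | edge _, top => True
  | face _ _, bot => False
  | face _ _, vert _ _ => False
  | face _ _, edge _ => False
  | face s j, face s' j' => s = s' ∧ j = j'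
  | face _ _, top => True
  | top, bot => False
  | top, vert _ _ => False
  | top, edge _ => False
  | top, face _ _ => False
  | top, top => True

instance : PartialOrder Fc where
  le := leF
  le_refl x := by cases x <;> simp [leF]
  le_trans x y z hxy hyz := by
    cases x <;> cases y <;> cases z <;> simp_all [leF]
    exact ⟨_, hxy, hyz⟩
  le_antisymm x y hxy hyx := by
    cases x <;> cases y <;> simp_all [leF]

/-- The rank function. -/
def rk : Fc → ℤ
  | bot => -1
  | vert _ _ => 0
  | edge _ => 1
  | face _ _ => 2
  | top => 3

theorem le_def (x y : Fc) : x ≤ y ↔ leF x y := Iff.rfl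

theorem bot_le' (x : Fc) : Fc.bot ≤ x := by cases x <;> simp [le_def, leF]
theorem le_top' (x : Fc) : x ≤ Fc.top := by cases x <;> simp [le_def, leF]

theorem rk_strict : StrictMono rk := by
  intro x y h
  obtain ⟨h1, h2⟩ := lt_iff_le_and_ne.1 h
  cases x <;> cases y <;> simp_all [le_def, leF, rk]

/-! ### Flags -/

/-- The flag with edge `e`, vertex of type `t` and two-face of type `s`. -/
def mkF (e : Fin 72) (t s : Bool) : Flag Fc where
  carrier := {Fc.bot, vert t (av t e), edge e, face s (af s e), Fc.top}
  Chain' := by
    intro x hx y hy _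
    simp only [Set.mem_insert_iff, Set.mem_singleton_iff] at hx hy
    rcases hx with rfl | rfl | rfl | rfl | rfl <;> rcases hy with rfl | rfl | rfl | rfl | rfl <;>
      simp [le_def, leF]
    · exact ⟨e, rfl, rfl⟩
    · exact ⟨e, rfl, rfl⟩
  max_chain' := by
    intro S hS hsub
    apply Set.Subset.antisymm hsub
    intro x hx
    have hv : vert t (av t e) ∈ S := hsub (by simp)
    have he : edge e ∈ S := hsub (by simp)
    have hf : face s (af s e) ∈ S := hsub (by simp)
    cases x with
    | bot => simp
    | top => simp
    | vert t' i =>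
      rcases hS.total hx hv with h | h <;> simp only [le_def, leF] at h <;>
        (obtain ⟨rfl, rfl⟩ := h; simp)
    | edge e' =>
      rcases hS.total hx he with h | h <;> simp only [le_def, leF] at h <;>
        (subst h; simp)
    | face s' j =>
      rcases hS.total hx hf with h | h <;> simp only [le_def, leF] at h <;>
        (obtain ⟨rfl, rfl⟩ := h; simp)

theorem coe_mkF (e : Fin 72) (t s : Bool) :
    (mkF e t s : Set Fc) = {Fc.bot, vert t (av t e), edge e, face s (af s e), Fc.top} := rfl

/-- Insertion into a maximal chain. -/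
theorem mem_of_comparable (Φ : Flag Fc) (x : Fc) (h : ∀ y ∈ (Φ : Set Fc), x ≤ y ∨ y ≤ x) :
    x ∈ (Φ : Set Fc) := by
  have hc : IsChain (· ≤ ·) (insert x (Φ : Set Fc)) :=
    Φ.chain_le.insert (fun b hb _ => h b hb)
  have := Φ.max_chain' hc (Set.subset_insert _ _)
  have h2 : x ∈ insert x (Φ : Set Fc) := Set.mem_insert _ _
  rw [show (Φ : Set Fc) = Φ.carrier from rfl] at h2 ⊢
  rw [this]
  exact h2

theorem flag_eq_mkF (Φ : Flag Fc) : ∃ e t s, Φ = mkF e t s := by
  have hch := Φ.chain_le
  -- an edge
  have hedge : ∃ e, edge e ∈ (Φ : Set Fc) := by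
    by_contra hno
    push Not at hno
    -- choose an edge comparable with everything
    have key : ∃ e : Fin 72, (∀ t i, vert t i ∈ (Φ : Set Fc) → av t e = i) ∧
        (∀ s j, face s j ∈ (Φ : Set Fc) → af s e = j) := by
      by_cases hv : ∃ t i, vert t i ∈ (Φ : Set Fc)
      · obtain ⟨t, i, hv⟩ := hv
        have hvu : ∀ t' i', vert t' i' ∈ (Φ : Set Fc) → t' = t ∧ i' = i := by
          intro t' i' h'
          rcases hch.total h' hv with h | h <;> simp only [le_def, leF] at h
          · exact h
          · exact ⟨h.1.symm, h.2.symm⟩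
        by_cases hf : ∃ s j, face s j ∈ (Φ : Set Fc)
        · obtain ⟨s, j, hf⟩ := hf
          have hfu : ∀ s' j', face s' j' ∈ (Φ : Set Fc) → s' = s ∧ j' = j := by
            intro t' i' h'
            rcases hch.total h' hf with h | h <;> simp only [le_def, leF] at h
            · exact h
            · exact ⟨h.1.symm, h.2.symm⟩
          rcases hch.total hv hf with h | h <;> simp only [le_def, leF] at h
          obtain ⟨e, h1, h2⟩ := h
          refine ⟨e, fun t' i' h' => ?_, fun s' j' h' => ?_⟩
          · obtain ⟨rfl, rfl⟩ := hvu t' i' h'; exact h1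
          · obtain ⟨rfl, rfl⟩ := hfu s' j' h'; exact h2
        · push Not at hf
          obtain ⟨e, h1⟩ := av_surj t i
          refine ⟨e, fun t' i' h' => ?_, fun s' j' h' => absurd h' (hf s' j')⟩
          obtain ⟨rfl, rfl⟩ := hvu t' i' h'; exact h1
      · push Not at hv
        by_cases hf : ∃ s j, face s j ∈ (Φ : Set Fc)
        · obtain ⟨s, j, hf⟩ := hf
          obtain ⟨e, h1⟩ := af_surj s j
          refine ⟨e, fun t' i' h' => absurd h' (hv t' i'), fun s' j' h' => ?_⟩
          rcases hch.total h' hf with h | h <;> simp only [le_def, leF] at h <;>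
            (obtain ⟨rfl, rfl⟩ := h; exact h1)
        · push Not at hf
          exact ⟨0, fun t' i' h' => absurd h' (hv t' i'), fun s' j' h' => absurd h' (hf s' j')⟩
    obtain ⟨e, h1, h2⟩ := key
    apply hno e
    apply mem_of_comparable
    intro y hy
    cases y with
    | bot => right; exact bot_le' _
    | top => left; exact le_top' _
    | vert t i => right; exact h1 t i hy
    | edge e' => exact absurd hy (hno e')
    | face s j => left; exact h2 s j hy
  obtain ⟨e, he⟩ := hedge
  have hvert : ∃ t, vert t (av t e) ∈ (Φ : Set Fc) := by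
    by_cases hv : ∃ t i, vert t i ∈ (Φ : Set Fc)
    · obtain ⟨t, i, hv⟩ := hv
      rcases hch.total hv he with h | h <;> simp only [le_def, leF] at h
      exact ⟨t, h ▸ hv⟩
    · push Not at hv
      refine ⟨false, ?_⟩
      apply mem_of_comparable
      intro y hy
      have hve : vert false (av false e) ≤ edge e := by simp [le_def, leF]
      cases y with
      | bot => right; exact bot_le' _
      | top => left; exact le_top' _
      | vert t i => exact absurd hy (hv t i)
      | edge e' =>
        rcases hch.total hy he with h | h <;> simp only [le_def, leF] at h <;>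
          (subst h; left; exact hve)
      | face s j =>
        rcases hch.total hy he with h | h
        · simp only [le_def, leF] at h
        · left; exact le_trans hve h
  obtain ⟨t, hv⟩ := hvert
  have hface : ∃ s, face s (af s e) ∈ (Φ : Set Fc) := by
    by_cases hf : ∃ s j, face s j ∈ (Φ : Set Fc)
    · obtain ⟨s, j, hf⟩ := hf
      rcases hch.total hf he with h | h <;> simp only [le_def, leF] at h
      exact ⟨s, h ▸ hf⟩
    · push Not at hf
      refine ⟨false, ?_⟩
      apply mem_of_comparable
      intro y hy
      have hef : edge e ≤ face false (af false e) := by simp [le_def, leF]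
      cases y with
      | bot => right; exact bot_le' _
      | top => left; exact le_top' _
      | face s j => exact absurd hy (hf s j)
      | edge e' =>
        rcases hch.total hy he with h | h <;> simp only [le_def, leF] at h <;>
          (subst h; right; exact hef)
      | vert t i =>
        rcases hch.total hy he with h | h
        · right; exact le_trans h hef
        · simp only [le_def, leF] at h
  obtain ⟨s, hf⟩ := hface
  have hbot : Fc.bot ∈ (Φ : Set Fc) := mem_of_comparable Φ _ (fun y _ => Or.inl (bot_le' y))
  have htop : Fc.top ∈ (Φ : Set Fc) := mem_of_comparable Φ _ (fun y _ => Or.inr (le_top' y))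
  refine ⟨e, t, s, ?_⟩
  have hsub : (mkF e t s).carrier ⊆ (Φ : Set Fc) := by
    intro x hx
    rw [show (mkF e t s).carrier =
      {Fc.bot, vert t (av t e), edge e, face s (af s e), Fc.top} from rfl] at hx
    simp only [Set.mem_insert_iff, Set.mem_singleton_iff] at hx
    rcases hx with rfl | rfl | rfl | rfl | rfl <;> assumption
  have := (mkF e t s).max_chain' Φ.chain_le hsub
  exact SetLike.ext' this.symm

theorem mkF_ncard (e : Fin 72) (t s : Bool) : (mkF e t s : Set Fc).ncard = 5 := by
  rw [coe_mkF]
  have : ({Fc.bot, vert t (av t e), edge e, face s (af s e), Fc.top} : Set Fc) =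
      (({Fc.bot, vert t (av t e), edge e, face s (af s e), Fc.top} : Finset Fc) : Set Fc) := by
    simp
  rw [this, Set.ncard_coe_finset]
  simp

/-! ### Strong flag-connectedness -/

/-- Flags joined by a sequence all of whose members contain `C`. -/
def Joined (C : Set Fc) (Φ Ψ : Flag Fc) : Prop :=
  Relation.ReflTransGen
    (fun s t : Flag Fc => ((s : Set Fc) \ (t : Set Fc)).ncard = 1 ∧ C ⊆ (t : Set Fc)) Φ Ψ

theorem flipT (C : Set Fc) (e : Fin 72) (t t' s : Bool) (h : C ⊆ (mkF e t' s : Set Fc)) :
    Joined C (mkF e t s) (mkF e t' s) := by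
  by_cases htt : t = t'
  · subst htt; exact Relation.ReflTransGen.refl
  · apply Relation.ReflTransGen.single
    refine ⟨?_, h⟩
    have : (mkF e t s : Set Fc) \ (mkF e t' s : Set Fc) = {vert t (av t e)} := by
      rw [coe_mkF, coe_mkF]
      ext x
      simp only [Set.mem_sdiff, Set.mem_insert_iff, Set.mem_singleton_iff]
      constructor
      · rintro ⟨h1, h2⟩
        rcases h1 with rfl | rfl | rfl | rfl | rfl <;> simp_all
      · rintro rfl
        simp [htt]
    rw [this, Set.ncard_singleton]

theorem flipS (C : Set Fc) (e : Fin 72) (t s s' : Bool) (h : C ⊆ (mkF e t s' : Set Fc)) :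
    Joined C (mkF e t s) (mkF e t s') := by
  by_cases hss : s = s'
  · subst hss; exact Relation.ReflTransGen.refl
  · apply Relation.ReflTransGen.single
    refine ⟨?_, h⟩
    have : (mkF e t s : Set Fc) \ (mkF e t s' : Set Fc) = {face s (af s e)} := by
      rw [coe_mkF, coe_mkF]
      ext x
      simp only [Set.mem_sdiff, Set.mem_insert_iff, Set.mem_singleton_iff]
      constructor
      · rintro ⟨h1, h2⟩
        rcases h1 with rfl | rfl | rfl | rfl | rfl <;> simp_all
      · rintro rfl
        simp [hss]
    rw [this, Set.ncard_singleton]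

theorem stepR (C : Set Fc) (e : Fin 72) (t s : Bool) (h : C ⊆ (mkF (R t s e) t s : Set Fc)) :
    Joined C (mkF e t s) (mkF (R t s e) t s) := by
  apply Relation.ReflTransGen.single
  refine ⟨?_, h⟩
  obtain ⟨h1, h2, h3, h4⟩ := R_spec t s e
  have : (mkF e t s : Set Fc) \ (mkF (R t s e) t s : Set Fc) = {edge e} := by
    rw [coe_mkF, coe_mkF, h1, h2]
    ext x
    simp only [Set.mem_sdiff, Set.mem_insert_iff, Set.mem_singleton_iff]
    constructor
    · rintro ⟨h1, h2⟩
      rcases h1 with rfl | rfl | rfl | rfl | rfl <;> simp_all
    · rintro rfl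
      simp [Ne.symm h3]
  rw [this, Set.ncard_singleton]

/-- Walking around a vertex. -/
theorem vstep (C : Set Fc) (t : Bool) (i : Fin 9) (hC : C ⊆ {Fc.bot, vert t i, Fc.top})
    (e : Fin 72) (he : av t e = i) (s s' s'' : Bool) :
    av t (R t s' e) = i ∧ Joined C (mkF e t s) (mkF (R t s' e) t s'') := by
  obtain ⟨h1, h2, h3, h4⟩ := R_spec t s' e
  have hsub : ∀ e' s1, av t e' = i → C ⊆ (mkF e' t s1 : Set Fc) := by
    intro e' s1 he' x hx
    rw [coe_mkF, he']
    have := hC hx
    simp only [Set.mem_insert_iff, Set.mem_singleton_iff] at this ⊢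
    tauto
  refine ⟨h1.trans he, ?_⟩
  exact ((flipS C e t s s' (hsub _ _ he)).trans
    (stepR C e t s' (hsub _ _ (h1.trans he)))).trans (flipS C _ t s' s'' (hsub _ _ (h1.trans he)))

/-- Walking around a two-face. -/
theorem fstep (C : Set Fc) (s : Bool) (j : Fin 9) (hC : C ⊆ {Fc.bot, face s j, Fc.top})
    (e : Fin 72) (he : af s e = j) (t t' t'' : Bool) :
    af s (R t' s e) = j ∧ Joined C (mkF e t s) (mkF (R t' s e) t'' s) := by
  obtain ⟨h1, h2, h3, h4⟩ := R_spec t' s e
  have hsub : ∀ e' t1, af s e' = j → C ⊆ (mkF e' t1 s : Set Fc) := by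
    intro e' t1 he' x hx
    rw [coe_mkF, he']
    have := hC hx
    simp only [Set.mem_insert_iff, Set.mem_singleton_iff] at this ⊢
    tauto
  refine ⟨h2.trans he, ?_⟩
  exact ((flipT C e t t' s (hsub _ _ he)).trans
    (stepR C e t' s (hsub _ _ (h2.trans he)))).trans (flipT C _ t' t'' s (hsub _ _ (h2.trans he)))

theorem vertex_joined (C : Set Fc) (t : Bool) (i : Fin 9)
    (hC : C ⊆ {Fc.bot, vert t i, Fc.top}) (e e' : Fin 72) (he : av t e = i) (he' : av t e' = i)
    (s s' : Bool) : Joined C (mkF e t s) (mkF e' t s') := by
  have horb := vertex_orb t e e' (he'.trans he.symm)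
  have st := vstep C t i hC
  simp only [orb, List.mem_cons, List.not_mem_nil, or_false] at horb
  have k0 : ∀ s1, Joined C (mkF e t s) (mkF e t s1) := by
    intro s1
    apply flipS
    intro x hx
    rw [coe_mkF, he]
    have := hC hx
    simp only [Set.mem_insert_iff, Set.mem_singleton_iff] at this ⊢
    tauto
  have a1 := fun s1 => st e he s false s1
  have a2 := fun s1 => st _ (a1 false).1 false true s1
  have a3 := fun s1 => st _ (a2 false).1 false false s1
  have a4 := fun s1 => st _ (a3 false).1 false true s1
  have a5 := fun s1 => st _ (a4 false).1 false false s1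
  have a6 := fun s1 => st _ (a5 false).1 false true s1
  have a7 := fun s1 => st _ (a6 false).1 false false s1
  have k1 : ∀ s1, Joined C (mkF e t s) (mkF _ t s1) := fun s1 => (a1 s1).2
  have k2 : ∀ s1, Joined C (mkF e t s) (mkF _ t s1) := fun s1 => (k1 false).trans (a2 s1).2
  have k3 : ∀ s1, Joined C (mkF e t s) (mkF _ t s1) := fun s1 => (k2 false).trans (a3 s1).2
  have k4 : ∀ s1, Joined C (mkF e t s) (mkF _ t s1) := fun s1 => (k3 false).trans (a4 s1).2
  have k5 : ∀ s1, Joined C (mkF e t s) (mkF _ t s1) := fun s1 => (k4 false).trans (a5 s1).2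
  have k6 : ∀ s1, Joined C (mkF e t s) (mkF _ t s1) := fun s1 => (k5 false).trans (a6 s1).2
  have k7 : ∀ s1, Joined C (mkF e t s) (mkF _ t s1) := fun s1 => (k6 false).trans (a7 s1).2
  rcases horb with h | h | h | h | h | h | h | h <;> rw [h]
  · exact k0 s'
  · exact k1 s'
  · exact k2 s'
  · exact k3 s'
  · exact k4 s'
  · exact k5 s'
  · exact k6 s'
  · exact k7 s'

theorem face_joined (C : Set Fc) (s : Bool) (j : Fin 9)
    (hC : C ⊆ {Fc.bot, face s j, Fc.top}) (e e' : Fin 72) (he : af s e = j) (he' : af s e' = j)
    (t t' : Bool) : Joined C (mkF e t s) (mkF e' t' s) := by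
  have horb := face_orb s e e' (he'.trans he.symm)
  have st := fstep C s j hC
  simp only [orb, List.mem_cons, List.not_mem_nil, or_false] at horb
  have k0 : ∀ t1, Joined C (mkF e t s) (mkF e t1 s) := by
    intro t1
    apply flipT
    intro x hx
    rw [coe_mkF, he]
    have := hC hx
    simp only [Set.mem_insert_iff, Set.mem_singleton_iff] at this ⊢
    tauto
  have a1 := fun s1 => st e he t false s1
  have a2 := fun s1 => st _ (a1 false).1 false true s1
  have a3 := fun s1 => st _ (a2 false).1 false false s1
  have a4 := fun s1 => st _ (a3 false).1 false true s1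
  have a5 := fun s1 => st _ (a4 false).1 false false s1
  have a6 := fun s1 => st _ (a5 false).1 false true s1
  have a7 := fun s1 => st _ (a6 false).1 false false s1
  have k1 : ∀ s1, Joined C (mkF e t s) (mkF _ s1 s) := fun s1 => (a1 s1).2
  have k2 : ∀ s1, Joined C (mkF e t s) (mkF _ s1 s) := fun s1 => (k1 false).trans (a2 s1).2
  have k3 : ∀ s1, Joined C (mkF e t s) (mkF _ s1 s) := fun s1 => (k2 false).trans (a3 s1).2
  have k4 : ∀ s1, Joined C (mkF e t s) (mkF _ s1 s) := fun s1 => (k3 false).trans (a4 s1).2
  have k5 : ∀ s1, Joined C (mkF e t s) (mkF _ s1 s) := fun s1 => (k4 false).trans (a5 s1).2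
  have k6 : ∀ s1, Joined C (mkF e t s) (mkF _ s1 s) := fun s1 => (k5 false).trans (a6 s1).2
  have k7 : ∀ s1, Joined C (mkF e t s) (mkF _ s1 s) := fun s1 => (k6 false).trans (a7 s1).2
  rcases horb with h | h | h | h | h | h | h | h <;> rw [h]
  · exact k0 t'
  · exact k1 t'
  · exact k2 t'
  · exact k3 t'
  · exact k4 t'
  · exact k5 t'
  · exact k6 t'
  · exact k7 t'

/-- All flags are joined, with no restriction. -/
theorem all_joined (C : Set Fc) (hC : C ⊆ {Fc.bot, Fc.top}) (e e' : Fin 72)
    (t s t' s' : Bool) : Joined C (mkF e t s) (mkF e' t' s') := by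
  have hsub : ∀ e t s, C ⊆ (mkF e t s : Set Fc) := by
    intro e1 t1 s1 x hx
    rw [coe_mkF]
    have := hC hx
    simp only [Set.mem_insert_iff, Set.mem_singleton_iff] at this ⊢
    tauto
  have hfl : ∀ e t s t' s', Joined C (mkF e t s) (mkF e t' s') := fun e t s t' s' =>
    (flipT C e t t' s (hsub _ _ _)).trans (flipS C e t' s s' (hsub _ _ _))
  -- joined to the flags at edge 0, in both directions
  have h1 : ∀ n : ℕ, ∀ e : Fin 72, e.val = n → ∀ t s t' s', Joined C (mkF e t s) (mkF 0 t' s') := by
    intro n
    induction n using Nat.strong_induction_on with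
    | _ n ih =>
      intro e hn t s t' s'
      by_cases h0 : e = 0
      · subst h0; exact hfl _ _ _ _ _
      · obtain ⟨t1, s1, hlt⟩ := R_lt e h0
        have := ih (R t1 s1 e).val (by rw [← hn]; exact hlt) (R t1 s1 e) rfl t1 s1 t' s'
        exact ((hfl e t s t1 s1).trans (stepR C e t1 s1 (hsub _ _ _))).trans this
  have h2 : ∀ n : ℕ, ∀ e : Fin 72, e.val = n → ∀ t s t' s', Joined C (mkF 0 t s) (mkF e t' s') := by
    intro n
    induction n using Nat.strong_induction_on with
    | _ n ih =>
      intro e hn t s t' s'
      by_cases h0 : e = 0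
      · subst h0; exact hfl _ _ _ _ _
      · obtain ⟨t1, s1, hlt⟩ := R_lt e h0
        have h3 := ih (R t1 s1 e).val (by rw [← hn]; exact hlt) (R t1 s1 e) rfl t s t1 s1
        have h4 := stepR C (R t1 s1 e) t1 s1 (hsub _ _ _)
        rw [(R_spec t1 s1 e).2.2.2] at h4
        exact (h3.trans h4).trans (hfl e t1 s1 t' s')
  exact (h1 e.val e rfl t s false false).trans (h2 e'.val e' rfl false false t' s')

theorem connectedF (Φ Ψ : Flag Fc) : Joined ((Φ : Set Fc) ∩ (Ψ : Set Fc)) Φ Ψ := by
  obtain ⟨e, t, s, rfl⟩ := flag_eq_mkF Φ
  obtain ⟨e', t', s', rfl⟩ := flag_eq_mkF Ψ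
  set C : Set Fc := (mkF e t s : Set Fc) ∩ (mkF e' t' s' : Set Fc) with hC
  have hCsub1 : ∀ x ∈ C, x = Fc.bot ∨ x = vert t (av t e) ∨ x = edge e ∨
      x = face s (af s e) ∨ x = Fc.top := by
    intro x hx
    have := hx.1
    rw [coe_mkF] at this
    simpa using this
  have hCsub2 : ∀ x ∈ C, x = Fc.bot ∨ x = vert t' (av t' e') ∨ x = edge e' ∨
      x = face s' (af s' e') ∨ x = Fc.top := by
    intro x hx
    have := hx.2
    rw [coe_mkF] at this
    simpa using this
  have cv : ∀ t1 i, vert t1 i ∈ C → t = t' ∧ av t e = av t' e' ∧ t1 = t ∧ i = av t e := by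
    intro t1 i hx
    have h1 := hCsub1 _ hx
    have h2 := hCsub2 _ hx
    simp only [reduceCtorEq, vert.injEq, false_or, or_false] at h1 h2
    exact ⟨h1.1.symm.trans h2.1, h1.2.symm.trans h2.2, h1.1, h1.2⟩
  have cf : ∀ s1 j, face s1 j ∈ C → s = s' ∧ af s e = af s' e' ∧ s1 = s ∧ j = af s e := by
    intro t1 i hx
    have h1 := hCsub1 _ hx
    have h2 := hCsub2 _ hx
    simp only [reduceCtorEq, face.injEq, false_or, or_false] at h1 h2
    exact ⟨h1.1.symm.trans h2.1, h1.2.symm.trans h2.2, h1.1, h1.2⟩
  have ce : ∀ e1, edge e1 ∈ C → e = e' := by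
    intro e1 hx
    have h1 := hCsub1 _ hx
    have h2 := hCsub2 _ hx
    simp only [reduceCtorEq, edge.injEq, false_or, or_false] at h1 h2
    exact h1.symm.trans h2
  by_cases hee : e = e'
  · subst hee
    refine (flipT C e t t' s ?_).trans (flipS C e t' s s' ?_)
    · intro x hx
      rw [coe_mkF]
      have h1 := hCsub1 x hx
      have h2 := hCsub2 x hx
      simp only [Set.mem_insert_iff, Set.mem_singleton_iff]
      clear cv cf ce hCsub1 hCsub2
      cases x with
      | bot => simp
      | top => simp
      | vert t1 i =>
        simp only [reduceCtorEq, vert.injEq, false_or, or_false] at h2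
        obtain ⟨h3, h4⟩ := h2
        subst h3; subst h4; simp
      | edge e1 =>
        simp only [reduceCtorEq, edge.injEq, false_or, or_false] at h1
        subst h1; simp
      | face s1 j =>
        simp only [reduceCtorEq, face.injEq, false_or, or_false] at h1
        obtain ⟨h3, h4⟩ := h1
        subst h3; subst h4; simp
    · exact Set.inter_subset_right
  · by_cases hv : t = t' ∧ av t e = av t' e'
    · obtain ⟨rfl, hv⟩ := hv
      by_cases hf : s = s' ∧ af s e = af s' e'
      · obtain ⟨rfl, hf⟩ := hf
        rcases corner t s e e' hv.symm hf.symm with h | h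
        · exact absurd h.symm hee
        · have := stepR C e t s (by rw [← h]; exact Set.inter_subset_right)
          rw [← h] at this
          exact this
      · apply vertex_joined C t (av t e) _ e e' rfl hv.symm
        intro x hx
        simp only [Set.mem_insert_iff, Set.mem_singleton_iff]
        cases x with
        | bot => simp
        | top => simp
        | vert t1 i =>
          obtain ⟨_, _, h3, h4⟩ := cv _ _ hx
          subst h3; subst h4; simp
        | edge e1 => exact absurd (ce _ hx) hee
        | face s1 j =>
          obtain ⟨h1, h2, _, _⟩ := cf _ _ hx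
          exact absurd ⟨h1, h2⟩ hf
    · by_cases hf : s = s' ∧ af s e = af s' e'
      · obtain ⟨rfl, hf⟩ := hf
        apply face_joined C s (af s e) _ e e' rfl hf.symm
        intro x hx
        simp only [Set.mem_insert_iff, Set.mem_singleton_iff]
        cases x with
        | bot => simp
        | top => simp
        | vert t1 i =>
          obtain ⟨h1, h2, _, _⟩ := cv _ _ hx
          exact absurd ⟨h1, h2⟩ hv
        | edge e1 => exact absurd (ce _ hx) hee
        | face s1 j =>
          obtain ⟨_, _, h3, h4⟩ := cf _ _ hx
          subst h3; subst h4; simp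
      · apply all_joined
        intro x hx
        simp only [Set.mem_insert_iff, Set.mem_singleton_iff]
        cases x with
        | bot => simp
        | top => simp
        | vert t1 i =>
          obtain ⟨h1, h2, _, _⟩ := cv _ _ hx
          exact absurd ⟨h1, h2⟩ hv
        | edge e1 => exact absurd (ce _ hx) hee
        | face s1 j =>
          obtain ⟨h1, h2, _, _⟩ := cf _ _ hx
          exact absurd ⟨h1, h2⟩ hf

/-! ### Counting: the diamond condition and equivelarity -/

instance : DecidableRel (α := Fc) (· ≤ ·) := fun x y => by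
  cases x <;> cases y <;> simp only [le_def, leF] <;> infer_instance

theorem count_vf : ∀ t s : Bool, ∀ e : Fin 72,
    (Finset.univ.filter fun e' : Fin 72 => av t e' = av t e ∧ af s e' = af s e).card = 2 := by
  decide +kernel

theorem count_v : ∀ t : Bool, ∀ i : Fin 9,
    (Finset.univ.filter fun e' : Fin 72 => av t e' = i).card = 8 := by
  decide +kernel

theorem count_f : ∀ s : Bool, ∀ j : Fin 9,
    (Finset.univ.filter fun e' : Fin 72 => af s e' = j).card = 8 := by
  decide +kernel

theorem count_v2 : ∀ t : Bool, ∀ i : Fin 9,
    (Finset.univ.filter fun p : Bool × Fin 9 => ∃ e, av t e = i ∧ af p.1 e = p.2).card = 8 := by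
  decide +kernel

theorem count_f2 : ∀ s : Bool, ∀ j : Fin 9,
    (Finset.univ.filter fun p : Bool × Fin 9 => ∃ e, av p.1 e = p.2 ∧ af s e = j).card = 8 := by
  decide +kernel

theorem edge_inj : Function.Injective Fc.edge := fun _ _ h => by injection h

theorem vert_inj : Function.Injective (fun p : Bool × Fin 9 => Fc.vert p.1 p.2) := by
  rintro ⟨a, b⟩ ⟨c, d⟩ h
  simp only [vert.injEq] at h
  exact Prod.ext h.1 h.2

theorem face_inj : Function.Injective (fun p : Bool × Fin 9 => Fc.face p.1 p.2) := by
  rintro ⟨a, b⟩ ⟨c, d⟩ h
  simp only [face.injEq] at h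
  exact Prod.ext h.1 h.2

theorem ncard_edges (p : Fin 72 → Prop) [DecidablePred p] (S : Set Fc)
    (hS : ∀ x, x ∈ S ↔ ∃ e, p e ∧ x = edge e) :
    S.ncard = (Finset.univ.filter p).card := by
  have : S = edge '' ((Finset.univ.filter p : Finset (Fin 72)) : Set (Fin 72)) := by
    ext x
    rw [hS]
    simp [eq_comm]
  rw [this, Set.ncard_image_of_injective _ edge_inj, Set.ncard_coe_finset]

theorem ncard_verts (p : Bool × Fin 9 → Prop) [DecidablePred p] (S : Set Fc)
    (hS : ∀ x, x ∈ S ↔ ∃ q, p q ∧ x = vert q.1 q.2) :
    S.ncard = (Finset.univ.filter p).card := by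
  have : S = (fun q : Bool × Fin 9 => Fc.vert q.1 q.2) ''
      ((Finset.univ.filter p : Finset (Bool × Fin 9)) : Set (Bool × Fin 9)) := by
    ext x
    rw [hS]
    simp [eq_comm]
  rw [this, Set.ncard_image_of_injective _ vert_inj, Set.ncard_coe_finset]

theorem ncard_faces (p : Bool × Fin 9 → Prop) [DecidablePred p] (S : Set Fc)
    (hS : ∀ x, x ∈ S ↔ ∃ q, p q ∧ x = face q.1 q.2) :
    S.ncard = (Finset.univ.filter p).card := by
  have : S = (fun q : Bool × Fin 9 => Fc.face q.1 q.2) ''
      ((Finset.univ.filter p : Finset (Bool × Fin 9)) : Set (Bool × Fin 9)) := by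
    ext x
    rw [hS]
    simp [eq_comm]
  rw [this, Set.ncard_image_of_injective _ face_inj, Set.ncard_coe_finset]

theorem diamondF (F G : Fc) (h : F ≤ G) (hr : rk G = rk F + 2) :
    {H : Fc | F ≤ H ∧ H ≤ G ∧ rk H = rk F + 1}.ncard = 2 := by
  cases F with
  | bot =>
    cases G with
    | edge e =>
      rw [ncard_verts (fun q => av q.1 e = q.2)]
      · have : (Finset.univ.filter fun q : Bool × Fin 9 => av q.1 e = q.2) =
            {(false, av false e), (true, av true e)} := by
          ext ⟨b, i⟩
          cases b <;> simp [eq_comm]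
        rw [this]; rfl
      · intro x
        cases x <;> simp [le_def, leF, rk]
        exact eq_comm
    | bot => simp [rk] at hr
    | vert t i => simp [rk] at hr
    | face t i => simp [rk] at hr
    | top => simp [rk] at hr
  | vert t i =>
    cases G with
    | face s j =>
      obtain ⟨e, h1, h2⟩ := h
      rw [ncard_edges (fun e' => av t e' = av t e ∧ af s e' = af s e)]
      · exact count_vf t s e
      · intro x
        cases x <;> simp [le_def, leF, rk, h1, h2]
    | bot => simp [rk] at hr
    | vert t i => simp [rk] at hr
    | edge e => simp [rk] at hr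
    | top => simp [rk] at hr
  | edge e =>
    cases G with
    | top =>
      rw [ncard_faces (fun q => af q.1 e = q.2)]
      · have : (Finset.univ.filter fun q : Bool × Fin 9 => af q.1 e = q.2) =
            {(false, af false e), (true, af true e)} := by
          ext ⟨b, i⟩
          cases b <;> simp [eq_comm]
        rw [this]; rfl
      · intro x
        cases x <;> simp [le_def, leF, rk]
        exact eq_comm
    | bot => simp [rk] at hr
    | vert t i => simp [rk] at hr
    | edge e => simp [rk] at hr
    | face t i => simp [rk] at hr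
  | face s j => cases G <;> simp [rk] at hr
  | top => cases G <;> simp [rk] at hr

theorem equivelarF : IsEquivelar rk 8 8 := by
  constructor
  · intro F G hF hG
    cases F with
    | bot =>
      cases G with
      | face s j =>
        refine ⟨bot_le' _, by simp [rk], ?_, ?_⟩
        · rw [ncard_verts (fun q => ∃ e, av q.1 e = q.2 ∧ af s e = j)]
          · exact count_f2 s j
          · intro x
            cases x <;> simp [le_def, leF, rk]
        · rw [ncard_edges (fun e => af s e = j)]
          · exact count_f s j
          · intro x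
            cases x <;> simp [le_def, leF, rk]
      | bot => simp [rk] at hG
      | vert t i => simp [rk] at hG
      | edge e => simp [rk] at hG
      | top => simp [rk] at hG
    | vert t i => simp [rk] at hF
    | edge e => simp [rk] at hF
    | face s j => simp [rk] at hF
    | top => simp [rk] at hF
  · intro F G hF hG
    cases G with
    | top =>
      cases F with
      | vert t i =>
        refine ⟨le_top' _, by simp [rk], ?_, ?_⟩
        · rw [ncard_edges (fun e => av t e = i)]
          · exact count_v t i
          · intro x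
            cases x <;> simp [le_def, leF, rk]
        · rw [ncard_faces (fun q => ∃ e, av t e = i ∧ af q.1 e = q.2)]
          · exact count_v2 t i
          · intro x
            cases x <;> simp [le_def, leF, rk]
      | bot => simp [rk] at hF
      | face s j => simp [rk] at hF
      | edge e => simp [rk] at hF
      | top => simp [rk] at hF
    | vert t i => simp [rk] at hG
    | edge e => simp [rk] at hG
    | face s j => simp [rk] at hG
    | bot => simp [rk] at hG

theorem polyhedronF : IsAbstractPolyhedron rk where
  strictMono := rk_strict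
  range_eq := by
    ext z
    simp only [Set.mem_range, Set.mem_insert_iff, Set.mem_singleton_iff]
    constructor
    · rintro ⟨x, rfl⟩
      cases x <;> simp [rk]
    · rintro (rfl | rfl | rfl | rfl | rfl)
      · exact ⟨Fc.bot, rfl⟩
      · exact ⟨vert false 0, rfl⟩
      · exact ⟨edge 0, rfl⟩
      · exact ⟨face false 0, rfl⟩
      · exact ⟨Fc.top, rfl⟩
  least := ⟨Fc.bot, bot_le', fun G => by cases G <;> simp [rk]⟩
  greatest := ⟨Fc.top, le_top', fun G => by cases G <;> simp [rk]⟩
  flag_card := by
    intro Φ
    obtain ⟨e, t, s, rfl⟩ := flag_eq_mkF Φ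
    exact mkF_ncard e t s
  diamond := diamondF
  connected := connectedF

/-! ### The duality -/

/-- Conjugation by `u`, as a map on the faces. -/
def dl : Fc → Fc
  | bot => top
  | vert t i => face t (uu i)
  | edge e => edge (sg e)
  | face s j => vert (!s) (uu j)
  | top => bot

theorem dl_four (x : Fc) : dl (dl (dl (dl x))) = x := by
  cases x <;> simp [dl, uu_four, sg_four]

theorem dl_anti (x y : Fc) (h : x ≤ y) : dl y ≤ dl x := by
  cases x <;> cases y <;> simp_all [le_def, leF, dl]
  · rename_i t i e
    rw [(sg_spec e t).1, h]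
  · rename_i t i s j
    obtain ⟨e, h1, h2⟩ := h
    refine ⟨sg e, ?_, ?_⟩
    · rw [(sg_spec e s).2, h2]
    · rw [(sg_spec e t).1, h1]
  · rename_i e s j
    rw [(sg_spec e s).2, h]

theorem dl_iff (x y : Fc) : x ≤ y ↔ dl y ≤ dl x := by
  constructor
  · exact dl_anti x y
  · intro h
    have := dl_anti _ _ (dl_anti _ _ (dl_anti _ _ h))
    rwa [dl_four, dl_four] at this

/-- The duality. -/
def dlE : Fc ≃ Fc where
  toFun := dl
  invFun x := dl (dl (dl x))
  left_inv := dl_four
  right_inv := dl_four

theorem dlE_duality : IsDuality dlE := fun x y => dl_iff x y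

/-! ### Automorphisms -/

/-- The square of the duality, as an automorphism. -/
def sqE : Fc ≃o Fc where
  toFun x := dl (dl x)
  invFun x := dl (dl x)
  left_inv := dl_four
  right_inv := dl_four
  map_rel_iff' := by
    intro x y
    exact (dl_iff _ _).symm.trans (dl_iff _ _).symm

/-- Left multiplication by a generator, as a map on the faces. -/
def lm (i : Fin 4) : Fc → Fc
  | bot => bot
  | vert t j => vert t (rho i j)
  | edge e => edge (L i e)
  | face s j => face s (rho i j)
  | top => top

theorem lm_lm (i : Fin 4) (x : Fc) : lm i (lm i x) = x := by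
  cases x <;> simp [lm, rho_rho, (L_spec i _).1]

theorem lm_mono (i : Fin 4) (x y : Fc) (h : x ≤ y) : lm i x ≤ lm i y := by
  cases x <;> cases y <;> simp_all [le_def, leF, lm]
  · rename_i t j e
    rw [((L_spec i e).2 t).1, h]
  · rename_i t j s k
    obtain ⟨e, h1, h2⟩ := h
    refine ⟨L i e, ?_, ?_⟩
    · rw [((L_spec i e).2 t).1, h1]
    · rw [((L_spec i e).2 s).2, h2]
  · rename_i e s j
    rw [((L_spec i e).2 s).2, h]

/-- Left multiplication by a generator, as an automorphism. -/
def lmE (i : Fin 4) : Fc ≃o Fc where
  toFun := lm i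
  invFun := lm i
  left_inv := lm_lm i
  right_inv := lm_lm i
  map_rel_iff' := by
    intro x y
    constructor
    · intro h
      have := lm_mono i _ _ h
      simpa [lm_lm] using this
    · exact lm_mono i x y

theorem aut_edge (n : ℕ) : ∀ e : Fin 72, e.val = n → ∃ φ : Fc ≃o Fc, φ (edge 0) = edge e ∧
    (∀ t, φ (vert t (av t 0)) = vert t (av t e)) ∧
    (∀ s, φ (face s (af s 0)) = face s (af s e)) := by
  induction n using Nat.strong_induction_on with
  | _ n ih =>
    intro e hn
    by_cases h0 : e = 0
    · subst h0
      exact ⟨OrderIso.refl _, rfl, fun _ => rfl, fun _ => rfl⟩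
    · obtain ⟨i, hlt⟩ := L_lt e h0
      obtain ⟨φ, h1, h2, h3⟩ := ih (L i e).val (by rw [← hn]; exact hlt) (L i e) rfl
      have hL := L_spec i (L i e)
      rw [(L_spec i e).1] at hL
      refine ⟨φ.trans (lmE i), ?_, ?_, ?_⟩
      · show lm i (φ (edge 0)) = edge e
        rw [h1]
        simp [lm, (L_spec i e).1]
      · intro t
        show lm i (φ (vert t (av t 0))) = vert t (av t e)
        rw [h2, (hL.2 t).1]
        simp [lm]
      · intro t
        show lm i (φ (face t (af t 0))) = face t (af t e)
        rw [h3, (hL.2 t).2]
        simp [lm]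

theorem fullyTransitiveF : IsFullyTransitive rk := by
  have hedge : ∀ e, ∃ φ : Fc ≃o Fc, φ (edge 0) = edge e := fun e =>
    let ⟨φ, h, _⟩ := aut_edge e.val e rfl; ⟨φ, h⟩
  have hvert : ∀ t i, ∃ φ : Fc ≃o Fc, φ (vert false (av false 0)) = vert t i := by
    intro t i
    cases t with
    | false =>
      obtain ⟨e, he⟩ := av_surj false i
      obtain ⟨φ, _, h, _⟩ := aut_edge e.val e rfl
      exact ⟨φ, by rw [h, he]⟩
    | true =>
      obtain ⟨e, he⟩ := av_surj false (uu (uu i))
      obtain ⟨φ, _, h, _⟩ := aut_edge e.val e rfl
      refine ⟨φ.trans sqE, ?_⟩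
      show dl (dl (φ _)) = _
      rw [h, he]
      simp [dl, uu_four]
  have hface : ∀ s j, ∃ φ : Fc ≃o Fc, φ (face false (af false 0)) = face s j := by
    intro t i
    cases t with
    | false =>
      obtain ⟨e, he⟩ := af_surj false i
      obtain ⟨φ, _, _, h⟩ := aut_edge e.val e rfl
      exact ⟨φ, by rw [h, he]⟩
    | true =>
      obtain ⟨e, he⟩ := af_surj false (uu (uu i))
      obtain ⟨φ, _, _, h⟩ := aut_edge e.val e rfl
      refine ⟨φ.trans sqE, ?_⟩
      show dl (dl (φ _)) = _
      rw [h, he]
      simp [dl, uu_four]
  have key : ∀ (b x y : Fc), (∃ φ : Fc ≃o Fc, φ b = x) → (∃ φ : Fc ≃o Fc, φ b = y) →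
      ∃ φ : Fc ≃o Fc, φ x = y := by
    rintro b x y ⟨φ, rfl⟩ ⟨ψ, rfl⟩
    exact ⟨φ.symm.trans ψ, by simp⟩
  intro x y h
  cases x <;> cases y <;> simp [rk] at h
  · exact ⟨OrderIso.refl _, rfl⟩
  · exact key _ _ _ (hvert _ _) (hvert _ _)
  · exact key _ _ _ (hedge _) (hedge _)
  · exact key _ _ _ (hface _ _) (hface _ _)
  · exact ⟨OrderIso.refl _, rfl⟩

/-! ### There is no polarity -/

theorem eq_top_of (x : Fc) (h : ∀ y, y ≤ x) : x = Fc.top := le_antisymm (le_top' x) (h _)

theorem eq_bot_of (x : Fc) (h : ∀ y, x ≤ y) : x = Fc.bot := le_antisymm (h _) (bot_le' x)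

theorem le_vert (t : Bool) (i : Fin 9) (y : Fc) (h : y ≤ vert t i) :
    y = Fc.bot ∨ y = vert t i := by
  cases y <;> simp_all [le_def, leF]

theorem noPolarity (δ : Fc ≃ Fc) (hδ : IsDuality δ) : ¬ ∀ x, δ (δ x) = x := by
  intro hinv
  have hbt : δ Fc.bot = Fc.top := by
    apply eq_top_of
    intro y
    have h := (hδ Fc.bot (δ y)).1 (bot_le' _)
    rwa [hinv] at h
  have htb : δ Fc.top = Fc.bot := by rw [← hbt, hinv]
  -- a vertex goes to a two-face
  have hvf : ∀ t i, ∃ s j, δ (vert t i) = face s j := by
    intro t i
    have hup : ∀ z, δ (vert t i) ≤ z → z = Fc.top ∨ z = δ (vert t i) := by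
      intro z hz
      have h := (hδ _ _).1 hz
      rw [hinv] at h
      rcases le_vert _ _ _ h with h | h
      · left; rw [← hinv z, h, hbt]
      · right; rw [← hinv z, h]
    cases hx : δ (vert t i) with
    | face s j => exact ⟨s, j, rfl⟩
    | bot =>
      have := hinv (vert t i)
      rw [hx, hbt] at this
      exact absurd this (by simp)
    | top =>
      have := hinv (vert t i)
      rw [hx, htb] at this
      exact absurd this (by simp)
    | vert t' i' =>
      rw [hx] at hup
      obtain ⟨e, he⟩ := av_surj t' i'
      rcases hup (edge e) he with h | h <;> exact absurd h (by simp)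
    | edge e =>
      rw [hx] at hup
      have h1 : edge e ≤ face false (af false e) := by simp [le_def, leF]
      rcases hup _ h1 with h | h <;> exact absurd h (by simp)
  -- a two-face goes to a vertex
  have hfv : ∀ s j, ∃ t i, δ (face s j) = vert t i := by
    intro s j
    have hdn : ∀ z, z ≤ δ (face s j) → z = Fc.bot ∨ z = δ (face s j) := by
      intro z hz
      have h := (hδ _ _).1 hz
      rw [hinv] at h
      have h3 : δ z = Fc.top ∨ δ z = face s j := by
        revert h
        cases δ z <;> simp_all [le_def, leF]
      rcases h3 with h | h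
      · left; rw [← hinv z, h, htb]
      · right; rw [← hinv z, h]
    cases hx : δ (face s j) with
    | vert t i => exact ⟨t, i, rfl⟩
    | bot =>
      have := hinv (face s j)
      rw [hx, hbt] at this
      exact absurd this (by simp)
    | top =>
      have := hinv (face s j)
      rw [hx, htb] at this
      exact absurd this (by simp)
    | face s' j' =>
      rw [hx] at hdn
      obtain ⟨e, he⟩ := af_surj s' j'
      rcases hdn (edge e) he with h | h <;> exact absurd h (by simp)
    | edge e =>
      rw [hx] at hdn
      have h1 : vert false (av false e) ≤ edge e := by simp [le_def, leF]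
      rcases hdn _ h1 with h | h <;> exact absurd h (by simp)
  -- an edge goes to an edge
  have hee : ∀ e, ∃ e', δ (edge e) = edge e' := by
    intro e
    cases hx : δ (edge e) with
    | edge e' => exact ⟨e', rfl⟩
    | bot =>
      have := hinv (edge e)
      rw [hx, hbt] at this
      exact absurd this (by simp)
    | top =>
      have := hinv (edge e)
      rw [hx, htb] at this
      exact absurd this (by simp)
    | vert t i =>
      have := hinv (edge e)
      obtain ⟨s, j, h⟩ := hvf t i
      rw [hx, h] at this
      exact absurd this (by simp)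
    | face s j =>
      have := hinv (edge e)
      obtain ⟨t, i, h⟩ := hfv s j
      rw [hx, h] at this
      exact absurd this (by simp)
  choose τ hτ using hee
  have hττ : ∀ e, τ (τ e) = e := by
    intro e
    have := hinv (edge e)
    rw [hτ, hτ] at this
    exact edge_inj this
  -- the type of the image of a vertex
  have hS : ∀ t e, ∃ s, δ (vert t (av t e)) = face s (af s (τ e)) := by
    intro t e
    obtain ⟨s, j, h⟩ := hvf t (av t e)
    refine ⟨s, ?_⟩
    have h1 : vert t (av t e) ≤ edge e := by simp [le_def, leF]
    have h2 := (hδ _ _).1 h1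
    rw [hτ, h] at h2
    simp only [le_def, leF] at h2
    rw [h, h2]
  choose S hS using hS
  have hSne : ∀ e, S true e = !S false e := by
    intro e
    by_contra hne
    have h1 : S true e = S false e := by
      revert hne
      cases S true e <;> cases S false e <;> simp
    have h2 : δ (vert true (av true e)) = δ (vert false (av false e)) := by
      rw [hS, hS, h1]
    have h3 := δ.injective h2
    simp at h3
  have hSR : ∀ t s e, S t (R t s e) = S t e := by
    intro t s e
    have h1 := hS t (R t s e)
    rw [(R_spec t s e).1, hS t e] at h1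
    simp only [face.injEq] at h1
    exact h1.1.symm
  have hSR' : ∀ t s e, S false (R t s e) = S false e := by
    intro t s e
    cases t with
    | false => exact hSR false s e
    | true =>
      have h1 := hSR true s e
      rw [hSne, hSne] at h1
      simpa using h1
  have hconst : ∀ n : ℕ, ∀ e : Fin 72, e.val = n → S false e = S false 0 := by
    intro n
    induction n using Nat.strong_induction_on with
    | _ n ih =>
      intro e hn
      by_cases h0 : e = 0
      · rw [h0]
      · obtain ⟨t1, s1, hlt⟩ := R_lt e h0
        rw [← hSR' t1 s1 e]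
        exact ih (R t1 s1 e).val (by rw [← hn]; exact hlt) (R t1 s1 e) rfl
  set p := S false 0 with hp
  have hSp : ∀ t e, S t e = xor t p := by
    intro t e
    cases t with
    | false => rw [hconst e.val e rfl]; simp
    | true => rw [hSne, hconst e.val e rfl]; simp
  have hV : ∀ t e, δ (vert t (av t e)) = face (xor t p) (af (xor t p) (τ e)) := by
    intro t e
    rw [hS, hSp]
  have hF : ∀ s e, δ (face s (af s e)) = vert (xor s p) (av (xor s p) (τ e)) := by
    intro s e
    have h1 := hV (xor s p) (τ e)
    rw [hττ, show xor (xor s p) p = s by cases s <;> cases p <;> rfl] at h1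
    rw [← h1, hinv]
  have hτR : ∀ t s e, τ (R t s e) = R (xor s p) (xor t p) (τ e) := by
    intro t s e
    obtain ⟨r1, r2, r3, _⟩ := R_spec t s e
    have h1 := hV t (R t s e)
    rw [r1, hV t e] at h1
    have h2 := hF s (R t s e)
    rw [r2, hF s e] at h2
    simp only [face.injEq, vert.injEq, true_and] at h1 h2
    rcases corner (xor s p) (xor t p) (τ e) (τ (R t s e)) h2.symm h1.symm with h | h
    · exfalso
      apply r3
      rw [← hττ (R t s e), h, hττ]
    · exact h
  have hw := word_id 0
  have hw' := congrArg τ hw
  simp only [hτR] at hw'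
  have hne := word_ne (τ 0)
  revert hw' hne
  cases p
  · intro h1 h2
    exact h2.1 (by simpa using h1)
  · intro h1 h2
    exact h2.2 (by simpa using h1)

/-- **There is an equivelar self-dual polyhedron without polarities**, and it can be chosen
finite, of type `{8, 8}` and fully transitive. -/
theorem result : ∃ (P : Type) (_ : Fintype P) (_ : PartialOrder P) (rk : P → ℤ),
    IsAbstractPolyhedron rk ∧ IsEquivelar rk 8 8 ∧ IsFullyTransitive rk ∧
      (∃ δ : P ≃ P, IsDuality δ) ∧
      ∀ δ : P ≃ P, IsDuality δ → ¬ ∀ F, δ (δ F) = F :=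
  ⟨Fc, inferInstance, inferInstance, rk, polyhedronF, equivelarF, fullyTransitiveF,
    ⟨dlE, dlE_duality⟩, noPolarity⟩

end Pool.Agent.Results.MP_1940b6_co.FullyTransitiveNoPolarity
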